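import Pool.Agent.Helper58.SF.StS

/-!
# Project SF, module SEC: continuous families of discs
-/

set_option autoImplicit false

namespace Pool.Agent.Helper22.SF

open Set Topology Pool.Agent.Helper58.SF

/-- The closed disc. -/
private abbrev Bd : Type := ↥(Metric.closedBall (0 : ℂ) 1)

private instance : CompactSpace Bd := isCompact_iff_compactSpace.mp (isCompact_closedBall 0 1)

section main

variable {P : Type} [MetricSpace P] {K₀ : Set P}

/-- The parametrisations of the disc `D u`. -/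
private def EE (K₀ : Set P) (D : ℝ → Set P) (j : ℂ → P) (u : ℝ) : Set C(Bd, ↥K₀) :=
  {θ | Function.Injective θ ∧ (∀ z, (θ z : P) ∈ D u) ∧ (∀ y ∈ D u, ∃ z, (θ z : P) = y) ∧
    ∀ z : Bd, ‖(z : ℂ)‖ = 1 → (θ z : P) = j z}

/-- The nearly injective maps. -/
private def OO (K₀ : Set P) (n : ℕ) : Set C(Bd, ↥K₀) :=
  {θ | ∀ z z' : Bd, 1 / ((n : ℝ) + 1) ≤ dist z z' → θ z ≠ θ z'}

private lemma cont_eval : Continuous fun p : C(Bd, ↥K₀) × Bd => p.1 p.2 :=
  ContinuousEval.continuous_eval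

private lemma isOpen_OO (K₀ : Set P) (n : ℕ) : IsOpen (OO K₀ n) := by
  have e1 : Continuous fun p : C(Bd, ↥K₀) × (Bd × Bd) => p.1 p.2.1 :=
    cont_eval.comp (continuous_fst.prodMk (continuous_fst.comp continuous_snd))
  have e2 : Continuous fun p : C(Bd, ↥K₀) × (Bd × Bd) => p.1 p.2.2 :=
    cont_eval.comp (continuous_fst.prodMk (continuous_snd.comp continuous_snd))
  have e3 : Continuous fun p : C(Bd, ↥K₀) × (Bd × Bd) => dist p.2.1 p.2.2 :=
    (continuous_fst.comp continuous_snd).dist (continuous_snd.comp continuous_snd)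
  have h1 : IsClosed ({p : C(Bd, ↥K₀) × (Bd × Bd) | 1 / ((n : ℝ) + 1) ≤ dist p.2.1 p.2.2} ∩
      {p : C(Bd, ↥K₀) × (Bd × Bd) | p.1 p.2.1 = p.1 p.2.2}) :=
    (isClosed_le continuous_const e3).inter (isClosed_eq e1 e2)
  have h2 := isClosedMap_fst_of_compactSpace _ h1
  rw [← isOpen_compl_iff] at h2
  convert h2 using 1
  ext θ
  constructor
  · rintro h ⟨⟨θ', z, z'⟩, ⟨h3, h4⟩, h5⟩
    subst h5
    exact h z z' h3 h4
  · intro h z z' h3 h4
    exact h ⟨(θ, z, z'), ⟨h3, h4⟩, rfl⟩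

/-- The closed condition. -/
private lemma isClosed_EE (K₀ : Set P) (D : ℝ → Set P) (j : ℂ → P) (u : ℝ) (hD : IsClosed (D u)) :
    IsClosed {θ : C(Bd, ↥K₀) | (∀ z, (θ z : P) ∈ D u) ∧ (∀ y ∈ D u, ∃ z, (θ z : P) = y) ∧
      ∀ z : Bd, ‖(z : ℂ)‖ = 1 → (θ z : P) = j z} := by
  have hev : ∀ z : Bd, Continuous fun θ : C(Bd, ↥K₀) => (θ z : P) := fun z =>
    continuous_subtype_val.comp (cont_eval.comp (continuous_id.prodMk continuous_const))
  have hA : IsClosed (⋂ z, {θ : C(Bd, ↥K₀) | (θ z : P) ∈ D u}) :=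
    isClosed_iInter fun z => hD.preimage (hev z)
  have hB : IsClosed (⋂ y ∈ D u, {θ : C(Bd, ↥K₀) | ∃ z, (θ z : P) = y}) := by
    refine isClosed_biInter fun y _ => ?_
    have h1 : IsClosed {p : C(Bd, ↥K₀) × Bd | (p.1 p.2 : P) = y} :=
      isClosed_eq (continuous_subtype_val.comp cont_eval) continuous_const
    have h2 := isClosedMap_fst_of_compactSpace _ h1
    convert h2 using 1
    ext θ
    constructor
    · rintro ⟨z, hz⟩
      exact ⟨(θ, z), hz, rfl⟩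
    · rintro ⟨⟨θ', z⟩, h3, h4⟩
      subst h4
      exact ⟨z, h3⟩
  have hC : IsClosed (⋂ z : Bd, ⋂ _ : ‖(z : ℂ)‖ = 1, {θ : C(Bd, ↥K₀) | (θ z : P) = j z}) :=
    isClosed_iInter fun z => isClosed_iInter fun _ => isClosed_eq (hev z) continuous_const
  convert hA.inter (hB.inter hC) using 1
  ext θ
  simp only [mem_inter_iff, mem_iInter]
  exact Iff.rfl

/-- An injective map separates distant points uniformly. -/
private lemma sep (θ : C(Bd, ↥K₀)) (hθ : Function.Injective θ) (η : ℝ) (hη : 0 < η) :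
    ∃ m : ℝ, 0 < m ∧ ∀ z z' : Bd, η ≤ dist z z' → m ≤ dist (θ z) (θ z') := by
  have hc : IsCompact {p : Bd × Bd | η ≤ dist p.1 p.2} :=
    (isClosed_le continuous_const (continuous_fst.dist continuous_snd)).isCompact
  have hcont : Continuous fun p : Bd × Bd => dist (θ p.1) (θ p.2) :=
    (θ.continuous.comp continuous_fst).dist (θ.continuous.comp continuous_snd)
  rcases ({p : Bd × Bd | η ≤ dist p.1 p.2}).eq_empty_or_nonempty with h | h
  · refine ⟨1, one_pos, fun z z' hz => ?_⟩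
    have : ((z, z') : Bd × Bd) ∈ {p : Bd × Bd | η ≤ dist p.1 p.2} := hz
    rw [h] at this
    exact absurd this (by simp)
  · obtain ⟨p, hp, hmin⟩ := hc.exists_isMinOn h hcont.continuousOn
    refine ⟨dist (θ p.1) (θ p.2), ?_, fun z z' hz => ?_⟩
    · rw [dist_pos]
      intro h1
      have h2 := hθ h1
      have h3 : η ≤ dist p.1 p.2 := hp
      rw [h2, dist_self] at h3
      linarith
    · exact hmin (show ((z, z') : Bd × Bd) ∈ {p : Bd × Bd | η ≤ dist p.1 p.2} from hz)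

/-- A parametrisation as a homeomorphism. -/
private lemma homeo (D : ℝ → Set P) (j : ℂ → P) (u : ℝ) (θ : C(Bd, ↥K₀))
    (h : θ ∈ EE K₀ D j u) : ∃ e : Bd ≃ₜ ↥(D u), ∀ z, (e z : P) = θ z := by
  obtain ⟨h1, h2, h3, _⟩ := h
  have hc : Continuous fun z : Bd => (⟨(θ z : P), h2 z⟩ : ↥(D u)) :=
    Continuous.subtype_mk (continuous_subtype_val.comp θ.continuous) _
  have hb : Function.Bijective fun z : Bd => (⟨(θ z : P), h2 z⟩ : ↥(D u)) := by
    constructor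
    · intro z z' hz
      have hz' : (θ z : P) = (θ z' : P) := by
        have h4 := congrArg (fun y : ↥(D u) => (y : P)) hz
        exact h4
      exact h1 (Subtype.ext hz')
    · rintro ⟨y, hy⟩
      obtain ⟨z, hz⟩ := h3 y hy
      exact ⟨z, Subtype.ext hz⟩
  exact ⟨Continuous.homeoOfEquivCompactToT2 (f := Equiv.ofBijective _ hb) hc, fun z => rfl⟩

/-- The path between two parametrisations. -/
private lemma path (hALX : StALX) (D : ℝ → Set P) (j : ℂ → P) (u : ℝ) (θ₁ θ₂ : C(Bd, ↥K₀))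
    (h₁ : θ₁ ∈ EE K₀ D j u) (h₂ : θ₂ ∈ EE K₀ D j u) :
    ∃ (C : Bd → Bd) (A : C(unitInterval × Bd, Bd)), (∀ z, θ₁ (C z) = θ₂ z) ∧
      (∀ η : ℝ, (∀ z, dist (C z) z ≤ η) → ∀ t z, dist (A (t, z)) z ≤ η) ∧
      ∀ S : Set C(Bd, ↥K₀), (∀ θ : C(Bd, ↥K₀), (∃ t, ∀ z, θ z = θ₁ (A (t, z))) → θ ∈ S) →
        JoinedIn (EE K₀ D j u ∩ S) θ₁ θ₂ := by
  obtain ⟨e₁, he₁⟩ := homeo D j u θ₁ h₁
  obtain ⟨e₂, he₂⟩ := homeo D j u θ₂ h₂
  have hC : ∀ z, θ₁ ((e₂.trans e₁.symm) z) = θ₂ z := by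
    intro z
    apply Subtype.ext
    rw [← he₁, ← he₂]
    simp
  have hCb : ∀ z : Bd, ‖(z : ℂ)‖ = 1 → (e₂.trans e₁.symm) z = z := by
    intro z hz
    apply h₁.1
    rw [hC]
    apply Subtype.ext
    rw [h₁.2.2.2 z hz, h₂.2.2.2 z hz]
  obtain ⟨A, hA0, hA1, hAb, hAc, hAd⟩ := hALX (e₂.trans e₁.symm) hCb
  refine ⟨e₂.trans e₁.symm, A, hC, hAd, fun S hS => ?_⟩
  have hcont : Continuous fun t : unitInterval => θ₁.comp (A.curry t) :=
    (ContinuousMap.continuous_postcomp θ₁).comp A.curry.continuous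
  refine ⟨⟨⟨fun t => θ₁.comp (A.curry t), hcont⟩, ?_, ?_⟩, fun t => ⟨⟨?_, ?_, ?_, ?_⟩, ?_⟩⟩
  · ext z
    show (θ₁ (A (0, z)) : P) = θ₁ z
    rw [hA0]
  · ext z
    show (θ₁ (A (1, z)) : P) = θ₂ z
    rw [hA1, hC]
  · intro z z' hz
    have hz' : θ₁ (A (t, z)) = θ₁ (A (t, z')) := hz
    exact (hAb t).1 (h₁.1 hz')
  · intro z
    exact h₁.2.1 (A (t, z))
  · intro y hy
    obtain ⟨z, hz⟩ := h₁.2.2.1 y hy
    obtain ⟨z', hz'⟩ := (hAb t).2 z
    refine ⟨z', ?_⟩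
    show (θ₁ (A (t, z')) : P) = y
    have hz'' : A (t, z') = z := hz'
    rw [hz'', hz]
  · intro z hz
    show (θ₁ (A (t, z)) : P) = j z
    rw [hAc t z hz, h₁.2.2.2 z hz]
  · exact hS _ ⟨t, fun z => rfl⟩

/-- The family is lower semicontinuous and equi-locally path connected. -/
private lemma lscE (hALX : StALX) (D : ℝ → Set P) (j : ℂ → P)
    (hDK : ∀ u ∈ Icc (0 : ℝ) 1, D u ⊆ K₀)
    (hh : ∀ u₀ ∈ Icc (0 : ℝ) 1, ∀ ε : ℝ, 0 < ε → ∃ δ : ℝ, 0 < δ ∧ ∀ u ∈ Icc (0 : ℝ) 1,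
      |u - u₀| < δ → ∃ h : P → P, ContinuousOn h (D u₀) ∧ InjOn h (D u₀) ∧ h '' D u₀ = D u ∧
      (∀ z ∈ Metric.sphere (0 : ℂ) 1, h (j z) = j z) ∧ ∀ y ∈ D u₀, dist (h y) y < ε) :
    Lsc (fun u => EE K₀ D j u) := by
  constructor
  · intro u hu θ hθ ε hε
    obtain ⟨δ, hδ, H⟩ := hh u hu (ε / 2) (by linarith)
    refine ⟨δ, hδ, fun u' hu' huu => ?_⟩
    obtain ⟨h, h1, h2, h3, h4, h5⟩ := H u' hu' huu
    have hmem : ∀ z : Bd, h (θ z) ∈ D u' := by
      intro z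
      rw [← h3]
      exact mem_image_of_mem h (hθ.2.1 z)
    have hc : Continuous fun z : Bd => (⟨h (θ z), hDK u' hu' (hmem z)⟩ : ↥K₀) := by
      refine Continuous.subtype_mk ?_ _
      exact h1.comp_continuous (continuous_subtype_val.comp θ.continuous) hθ.2.1
    refine ⟨⟨fun z => ⟨h (θ z), hDK u' hu' (hmem z)⟩, hc⟩, ⟨?_, hmem, ?_, ?_⟩, ?_⟩
    · intro z z' hz
      have hz' : h (θ z) = h (θ z') := congrArg Subtype.val hz
      exact hθ.1 (Subtype.ext (h2 (hθ.2.1 z) (hθ.2.1 z') hz'))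
    · intro y hy
      rw [← h3] at hy
      obtain ⟨x, hx, rfl⟩ := hy
      obtain ⟨z, hz⟩ := hθ.2.2.1 x hx
      exact ⟨z, by show h (θ z) = h x; rw [hz]⟩
    · intro z hz
      show h (θ z) = j z
      rw [hθ.2.2.2 z hz]
      exact h4 z (by simpa using hz)
    · refine lt_of_le_of_lt ((ContinuousMap.dist_le (by linarith : (0 : ℝ) ≤ ε / 2)).2 ?_)
        (by linarith : ε / 2 < ε)
      intro z
      exact (h5 (θ z) (hθ.2.1 z)).le
  · intro u hu θ hθ ε hε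
    obtain ⟨η, hη, hη2⟩ := Metric.uniformContinuous_iff.1
      (CompactSpace.uniformContinuous_of_continuous θ.continuous) (ε / 2) (by linarith)
    obtain ⟨m, hm, hm2⟩ := sep θ hθ.1 (η / 2) (by linarith)
    refine ⟨min (ε / 2) (m / 2), by positivity, fun u' hu' _ θ₁ h₁ θ₂ h₂ hd₁ hd₂ => ?_⟩
    obtain ⟨C, A, hC, hA, hJ⟩ := path hALX D j u' θ₁ θ₂ h₁ h₂
    apply hJ
    rintro θ' ⟨t, ht⟩
    have k1 : ∀ z, dist (θ₁ z) (θ z) < min (ε / 2) (m / 2) := fun z =>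
      lt_of_le_of_lt (ContinuousMap.dist_apply_le_dist z) hd₁
    have k2 : ∀ z, dist (θ₂ z) (θ z) < min (ε / 2) (m / 2) := fun z =>
      lt_of_le_of_lt (ContinuousMap.dist_apply_le_dist z) hd₂
    have k3 : ∀ z, dist (C z) z ≤ η / 2 := by
      intro z
      by_contra hcon
      have k4 := hm2 (C z) z (not_le.1 hcon).le
      have k5 : dist (θ (C z)) (θ z) ≤ dist (θ (C z)) (θ₁ (C z)) + dist (θ₁ (C z)) (θ z) :=
        dist_triangle _ _ _
      rw [hC z] at k5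
      have k6 := k1 (C z)
      rw [hC z, dist_comm] at k6
      have k7 := k2 z
      have k8 : min (ε / 2) (m / 2) ≤ m / 2 := min_le_right _ _
      linarith
    have k9 := hA (η / 2) k3
    rw [Metric.mem_ball, ContinuousMap.dist_lt_iff hε]
    intro z
    rw [ht z]
    have k10 : dist (θ₁ (A (t, z))) (θ z) ≤ dist (θ₁ (A (t, z))) (θ (A (t, z))) +
      dist (θ (A (t, z))) (θ z) := dist_triangle _ _ _
    have k11 := k1 (A (t, z))
    have k12 : dist (θ (A (t, z))) (θ z) < ε / 2 := hη2 (lt_of_le_of_lt (k9 t z) (by linarith))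
    have k13 : min (ε / 2) (m / 2) ≤ ε / 2 := min_le_left _ _
    linarith

end main

theorem hSEC (hSEB : StSEB) (hALX : StALX) : StSEC := by
  intro P _ K₀ D j hK hDK hθ hh
  have : CompactSpace ↥K₀ := isCompact_iff_compactSpace.mp hK
  -- the parametrisations
  have hne : ∀ u ∈ Icc (0 : ℝ) 1, (EE K₀ D j u).Nonempty := by
    intro u hu
    obtain ⟨θ, h1, h2, h3, h4⟩ := hθ u hu
    have hmem : ∀ z : Bd, θ z ∈ D u := by
      intro z
      rw [← h3]
      exact mem_image_of_mem θ z.2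
    have hc : Continuous fun z : Bd => (⟨θ z, hDK u hu (hmem z)⟩ : ↥K₀) := by
      refine Continuous.subtype_mk ?_ _
      exact h1.comp_continuous continuous_subtype_val fun z => z.2
    refine ⟨⟨fun z => ⟨θ z, hDK u hu (hmem z)⟩, hc⟩, ?_, hmem, ?_, ?_⟩
    · intro z z' hz
      exact Subtype.ext (h2 z.2 z'.2 (congrArg Subtype.val hz))
    · intro y hy
      rw [← h3] at hy
      obtain ⟨z, hz, rfl⟩ := hy
      exact ⟨⟨z, hz⟩, rfl⟩
    · intro z hz
      exact h4 z (by simpa using hz)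
  have hDc : ∀ u ∈ Icc (0 : ℝ) 1, IsClosed (D u) := by
    intro u hu
    obtain ⟨θ, h1, h2, h3, h4⟩ := hθ u hu
    rw [← h3]
    exact ((isCompact_closedBall 0 1).image_of_continuousOn h1).isClosed
  have hpc : ∀ u ∈ Icc (0 : ℝ) 1, IsPathConnected (EE K₀ D j u) := by
    intro u hu
    obtain ⟨θ, hθ⟩ := hne u hu
    refine ⟨θ, hθ, fun {θ'} hθ' => ?_⟩
    obtain ⟨_, _, _, _, hJ⟩ := path hALX D j u θ θ' hθ hθ'
    exact (hJ univ fun _ _ => mem_univ _).mono inter_subset_left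
  have hEO : ∀ n, ∀ u ∈ Icc (0 : ℝ) 1, EE K₀ D j u ⊆ OO K₀ n := by
    intro n u _ θ hθ z z' hzz h
    have h2 := hθ.1 h
    rw [h2, dist_self] at hzz
    have h3 : (0 : ℝ) < 1 / ((n : ℝ) + 1) := by positivity
    linarith
  have hcl : ∀ u ∈ Icc (0 : ℝ) 1, ∀ θ ∈ closure (EE K₀ D j u), (∀ n, θ ∈ OO K₀ n) →
      θ ∈ EE K₀ D j u := by
    intro u hu θ hθ hO
    have h1 : θ ∈ {θ : C(Bd, ↥K₀) | (∀ z, (θ z : P) ∈ D u) ∧ (∀ y ∈ D u, ∃ z, (θ z : P) = y) ∧
        ∀ z : Bd, ‖(z : ℂ)‖ = 1 → (θ z : P) = j z} :=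
      closure_minimal (fun θ' hθ' => hθ'.2) (isClosed_EE K₀ D j u (hDc u hu)) hθ
    refine ⟨?_, h1⟩
    intro z z' hz
    by_contra hne'
    obtain ⟨n, hn⟩ := exists_nat_one_div_lt (dist_pos.2 hne')
    exact hO n z z' hn.le hz
  obtain ⟨s, hs1, hs2⟩ := hSEB C(Bd, ↥K₀) (fun u => EE K₀ D j u) (fun n => OO K₀ n)
    (lscE hALX D j hDK hh) hpc (isOpen_OO K₀) hEO hcl
  classical
  refine ⟨fun p => if h : p.2 ∈ Metric.closedBall (0 : ℂ) 1 then (s p.1 ⟨p.2, h⟩ : P) else j p.2,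
    ?_, ?_⟩
  · rw [continuousOn_iff_continuous_domRestrict]
    have h1 : Continuous fun p : ↥(Ico (0 : ℝ) 1 ×ˢ Metric.closedBall (0 : ℂ) 1) =>
        (s p.1.1 ⟨p.1.2, p.2.2⟩ : P) := by
      have h2 : Continuous fun p : ↥(Ico (0 : ℝ) 1 ×ˢ Metric.closedBall (0 : ℂ) 1) => s p.1.1 :=
        hs1.comp_continuous (continuous_fst.comp continuous_subtype_val) fun p => p.2.1
      have h3 : Continuous fun p : ↥(Ico (0 : ℝ) 1 ×ˢ Metric.closedBall (0 : ℂ) 1) =>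
          (⟨p.1.2, p.2.2⟩ : Bd) :=
        Continuous.subtype_mk (continuous_snd.comp continuous_subtype_val) _
      exact continuous_subtype_val.comp (cont_eval.comp (h2.prodMk h3))
    convert h1 using 1
    funext p
    have hp : p.1.2 ∈ Metric.closedBall (0 : ℂ) 1 := p.2.2
    simp only [domRestrict_apply]
    rw [dif_pos hp]
  · intro u hu
    have hE := hs2 u hu
    refine ⟨?_, ?_, ?_⟩
    · intro z hz z' hz' h
      have h' : (s u ⟨z, hz⟩ : P) = s u ⟨z', hz'⟩ := by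
        simpa only [dif_pos hz, dif_pos hz'] using h
      exact congrArg Subtype.val (hE.1 (Subtype.ext h'))
    · ext y
      constructor
      · rintro ⟨z, hz, rfl⟩
        simp only [dif_pos hz]
        exact hE.2.1 _
      · intro hy
        obtain ⟨z, hz⟩ := hE.2.2.1 y hy
        refine ⟨z, z.2, ?_⟩
        simp only [dif_pos z.2]
        exact hz
    · intro z hz
      have hz' : z ∈ Metric.closedBall (0 : ℂ) 1 := Metric.sphere_subset_closedBall hz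
      simp only [dif_pos hz']
      exact hE.2.2.2 ⟨z, hz'⟩ (by simpa using hz)

end Pool.Agent.Helper22.SF
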